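import Mathlib
import Pool.Agent.K6.H35.SA.Final

/-!
# Rare spikes of the solid angle of a random cone (problem MP_da621d_pr, Q1)

The measures `muD d`, `mu_d A = 2 ^ d * d * P (alpha_d in A)` on `(0, oo)`, where `alpha_d` is the
solid angle of the positive hull of `d` independent uniform unit vectors of the Euclidean space of
dimension `d`, converge vaguely to a locally finite measure different from `0`.

Outline: by the symmetry `E alpha_d ^ k = m(d,k) = m(k,d)` the numbers `2 ^ d * d * m(d,k)` are
`d * 2 ^ d * E (alpha_k ^ d)`. The largest value `1/2` of `alpha_k` is attained at degenerate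
configurations only, and a Laplace type analysis near these shows that for every `k >= 2` the
numbers `2 ^ d * d * m(d,k)` converge to a finite number `c_k > 0`. As `alpha_d` lies in `[0,1]`, the
measures `x ^ 2 mu_d (dx)` on `[0,1]` have bounded masses and convergent moments, so they converge
weakly; dividing by `x ^ 2` gives the limit.
-/

set_option autoImplicit false

namespace Pool.Agent.Results.MP_da621d_pr.VagueLimit

open MeasureTheory Filter Topology Set
open Pool.Agent.K6.H35.SA

/-- Q1 of MP_da621d_pr, answered in the affirmative. -/
theorem result : ∃ μ : Measure (Ioi (0 : ℝ)), IsLocallyFiniteMeasure μ ∧ μ ≠ 0 ∧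
    ∀ f : Ioi (0 : ℝ) → ℝ, Continuous f → HasCompactSupport f →
      Tendsto (fun d : ℕ => ∫ x, f x ∂(muD d)) atTop (𝓝 (∫ x, f x ∂μ)) :=
  main

end Pool.Agent.Results.MP_da621d_pr.VagueLimit
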